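import Pool.Agent.W2helper20.KS.Stm

/-! Project KS, piece SCALE. -/

set_option autoImplicit false

namespace Pool.Agent.W2helper19.KS

open Set Metric MeasureTheory Filter Topology
open scoped ContDiff InnerProductSpace ENNReal
open Pool.Agent.Q176.BR Pool.Agent.W2helper20.BC Pool.Agent.W2helper25.KB Pool.Agent.W2helper20.KS

theorem p_SCALE : P_SCALE := by
  intro n g h k hn hg hh hk hL
  rcases hk.eq_or_lt with rfl | hk
  · simp
  have hs : IsSemi (fun x => (k ^ 2)⁻¹ • h x) := by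
    refine ⟨hh.smooth.const_smul _, ?_, ?_⟩
    · intro x v w
      show (k ^ 2)⁻¹ * h x v w = (k ^ 2)⁻¹ * h x w v
      rw [hh.symm]
    · intro x v
      show 0 ≤ (k ^ 2)⁻¹ * h x v v
      exact mul_nonneg (by positivity) (hh.nonneg x v)
  have hsq : ∀ x v, √(((fun x => (k ^ 2)⁻¹ • h x) : Fld n) x v v) = k⁻¹ * √(h x v v) := by
    intro x v
    show √((k ^ 2)⁻¹ * h x v v) = k⁻¹ * √(h x v v)
    rw [Real.sqrt_mul (by positivity), Real.sqrt_inv, Real.sqrt_sq hk.le]
  have hlen : ∀ c, len (fun x => (k ^ 2)⁻¹ • h x) c = k⁻¹ * len h c := by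
    intro c
    unfold len
    rw [← intervalIntegral.integral_const_mul]
    congr 1
    funext t
    exact hsq _ _
  have hLG : LenGe g (fun x => (k ^ 2)⁻¹ • h x) := by
    intro c h1 h2 h3 h4
    rw [hlen, le_inv_mul_iff₀ hk]
    exact hL c h1 h2 h3 h4
  have hA := (p_AVG2 (Pool.Agent.W2helper98.BC.p_inv p_sym) Pool.Agent.W2helper6.BC.p_meas p_chord1
    p_chord2 n g (fun x => (k ^ 2)⁻¹ • h x) hn hg hs hLG).1
  have hA1 : A1 g (fun x => (k ^ 2)⁻¹ • h x) = ENNReal.ofReal k⁻¹ * A1 g h := by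
    unfold A1
    rw [← lintegral_const_mul' _ _ ENNReal.ofReal_ne_top]
    refine lintegral_congr (fun x => ?_)
    rw [← lintegral_const_mul' _ _ ENNReal.ofReal_ne_top]
    refine lintegral_congr (fun v => ?_)
    rw [hsq, mul_left_comm, ENNReal.ofReal_mul (by positivity), mul_assoc]
  rw [hA1] at hA
  calc ENNReal.ofReal k * A2 g ≤ ENNReal.ofReal k * (ENNReal.ofReal k⁻¹ * A1 g h) := by gcongr
    _ = A1 g h := by
      rw [← mul_assoc, ← ENNReal.ofReal_mul hk.le, mul_inv_cancel₀ hk.ne', ENNReal.ofReal_one, one_mul]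

end Pool.Agent.W2helper19.KS
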